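import Mathlib

/-! A list-based Laplace expansion on sparse integer polynomials, used to evaluate determinants
by kernel computation. -/

namespace Pool.Agent.Lib.MP_9405a7_co

/-- monomial: coefficient and list of variable indices (sorted by insertion) -/
abbrev Mono := ℤ × List ℕ

/-- sparse polynomial -/
abbrev SP := List Mono

def insVar (v : ℕ) : List ℕ → List ℕ
  | [] => [v]
  | w :: l => if v ≤ w then v :: w :: l else w :: insVar v l

def mulVars : List ℕ → List ℕ → List ℕ
  | [], l => l
  | v :: k, l => insVar v (mulVars k l)

def insMono (m : Mono) : SP → SP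
  | [] => [m]
  | p :: l => if m.2 = p.2 then (if m.1 + p.1 = 0 then l else (m.1 + p.1, p.2) :: l)
      else p :: insMono m l

def addSP : SP → SP → SP
  | [], q => q
  | m :: p, q => insMono m (addSP p q)

def mulMono (m : Mono) : SP → SP
  | [] => []
  | p :: l => (m.1 * p.1, mulVars m.2 p.2) :: mulMono m l

def mulSP : SP → SP → SP
  | [], _ => []
  | m :: p, q => addSP (mulMono m q) (mulSP p q)

def negSP : SP → SP
  | [] => []
  | p :: l => (-p.1, p.2) :: negSP l

variable {R : Type*} [CommRing R]

def evV (x : ℕ → R) : List ℕ → R
  | [] => 1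
  | v :: l => x v * evV x l

def ev (x : ℕ → R) : SP → R
  | [] => 0
  | m :: l => (m.1 : R) * evV x m.2 + ev x l

lemma evV_insVar (x : ℕ → R) (v : ℕ) (l : List ℕ) : evV x (insVar v l) = x v * evV x l := by
  induction l with
  | nil => simp [insVar, evV]
  | cons w l ih =>
    unfold insVar
    split_ifs
    · simp [evV]
    · simp only [evV, ih]; ring

lemma evV_mulVars (x : ℕ → R) (k l : List ℕ) : evV x (mulVars k l) = evV x k * evV x l := by
  induction k with
  | nil => simp [mulVars, evV]
  | cons v k ih => simp only [mulVars, evV_insVar, ih, evV]; ring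

lemma ev_insMono (x : ℕ → R) (m : Mono) (l : SP) :
    ev x (insMono m l) = (m.1 : R) * evV x m.2 + ev x l := by
  induction l with
  | nil => simp [insMono, ev]
  | cons p l ih =>
    unfold insMono
    split_ifs with h1 h2
    · have : (m.1 : R) + p.1 = 0 := by exact_mod_cast congrArg (Int.cast (R := R)) h2
      simp only [ev, h1]
      linear_combination (-evV x p.2) * this
    · simp only [ev, h1]; push_cast; ring
    · simp only [ev, ih]; ring

lemma ev_addSP (x : ℕ → R) (p q : SP) : ev x (addSP p q) = ev x p + ev x q := by
  induction p with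
  | nil => simp [addSP, ev]
  | cons m p ih => simp only [addSP, ev_insMono, ih, ev]; ring

lemma ev_mulMono (x : ℕ → R) (m : Mono) (q : SP) :
    ev x (mulMono m q) = (m.1 : R) * evV x m.2 * ev x q := by
  induction q with
  | nil => simp [mulMono, ev]
  | cons p l ih => simp only [mulMono, ev, ih, evV_mulVars]; push_cast; ring

lemma ev_mulSP (x : ℕ → R) (p q : SP) : ev x (mulSP p q) = ev x p * ev x q := by
  induction p with
  | nil => simp [mulSP, ev]
  | cons m p ih => simp only [mulSP, ev_addSP, ev_mulMono, ih, ev]; ring

lemma ev_negSP (x : ℕ → R) (p : SP) : ev x (negSP p) = - ev x p := by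
  induction p with
  | nil => simp [negSP, ev]
  | cons m p ih => simp only [negSP, ev, ih]; push_cast; ring

/-- alternating sum over the choice of a column: `pre` holds the columns already passed -/
def altSum (f : ℕ → List ℕ → SP) : List ℕ → List ℕ → SP
  | _, [] => []
  | pre, c :: post => addSP (f c (pre ++ post)) (negSP (altSum f (pre ++ [c]) post))

/-- Laplace expansion along the first listed row -/
def detL (A : ℕ → ℕ → SP) : List ℕ → List ℕ → SP
  | [], _ => [(1, [])]
  | r :: rs, cs => altSum (fun c cs' =>
      match A r c with
      | [] => []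
      | m :: p => mulSP (m :: p) (detL A rs cs')) [] cs

lemma ev_altSum (x : ℕ → R) (f : ℕ → List ℕ → SP) (post : List ℕ) : ∀ pre : List ℕ,
    ev x (altSum f pre post) =
      ∑ j : Fin post.length, (-1) ^ (j : ℕ) * ev x (f post[j] (pre ++ post.eraseIdx j)) := by
  induction post with
  | nil => intro pre; simp [altSum, ev]
  | cons c post ih =>
    intro pre
    simp only [altSum, ev_addSP, ev_negSP, ih, List.length_cons]
    rw [Fin.sum_univ_succ]
    simp only [Fin.val_zero, pow_zero, one_mul, Fin.val_succ, List.eraseIdx_cons_succ,
      List.eraseIdx_cons_zero, List.append_assoc, List.singleton_append, pow_succ]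
    rw [← Finset.sum_neg_distrib]
    congr 1
    apply Finset.sum_congr rfl
    intro j _
    simp

lemma ev_detL (x : ℕ → R) (A : ℕ → ℕ → SP) : ∀ (n : ℕ) (rs cs : List ℕ), rs.length = n →
    cs.length = n →
    ev x (detL A rs cs) =
      Matrix.det (Matrix.of fun i j : Fin n => ev x (A (rs.getD i 0) (cs.getD j 0))) := by
  intro n
  induction n with
  | zero =>
    intro rs cs hr hc
    obtain rfl := List.length_eq_zero_iff.mp hr
    simp [detL, ev, evV]
  | succ n ih =>
    intro rs cs hr hc
    obtain ⟨r, rs, rfl⟩ := List.exists_cons_of_length_eq_add_one hr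
    have hr' : rs.length = n := by simpa using hr
    rw [Matrix.det_succ_row_zero]
    simp only [detL, ev_altSum, List.nil_append]
    refine Fintype.sum_equiv (finCongr hc) _ _ fun j => ?_
    have hlen : (cs.eraseIdx j).length = n := by
      rw [List.length_eraseIdx_of_lt j.2]; omega
    have h1 : ev x (match A r cs[j] with
        | [] => []
        | m :: p => mulSP (m :: p) (detL A rs (cs.eraseIdx j))) =
        ev x (A r cs[j]) * ev x (detL A rs (cs.eraseIdx j)) := by
      split
      · rename_i h; rw [h]; simp [ev]
      · rename_i h; rw [h, ev_mulSP]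
    rw [h1, ih rs _ hr' hlen, mul_assoc]
    congr 2
    · simp
    · congr 1
      ext a b
      simp only [Matrix.of_apply, Matrix.submatrix_apply, Fin.val_succ, List.getD_cons_succ]
      congr 2
      rw [List.getD_eq_getElem?_getD, List.getD_eq_getElem?_getD, List.getElem?_eraseIdx]
      by_cases hb : (b : ℕ) < j
      · rw [if_pos hb, Fin.succAbove_of_castSucc_lt]
        · simp
        · simpa [Fin.lt_def] using hb
      · rw [if_neg hb, Fin.succAbove_of_le_castSucc]
        · simp
        · simpa [Fin.le_def] using hb

end Pool.Agent.Lib.MP_9405a7_co
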